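import Pool.Agent.R798.Pseudofan.Interior

set_option autoImplicit false

namespace Pool.Agent.Results.MP_d9dcf6_co.NotAFan

open Pool.Agent.R798.Pseudofan

/-- There are an `F`-matrix `V` with `3` rows and `17` columns and a pseudofan `C` of `V` which
is minimal (no proper subcollection is a pseudofan), in which two cones have intersecting
interiors, and which is not the set of `3`-dimensional cones of any complete simplicial fan
whose rays are the rays generated by the columns of `V`. -/
theorem result : ∃ (V : Fin 17 → Fin 3 → ℤ) (C : Finset (Finset (Fin 17))),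
    IsFMatrix V ∧ IsPseudofan V C ∧ (∀ C', C' ⊂ C → ¬ IsPseudofan V C') ∧
      (∃ I ∈ C, ∃ J ∈ C, I ≠ J ∧ (interior (cone V I) ∩ interior (cone V J)).Nonempty) ∧
        ¬ ∃ S ∈ SF V, conesOfDim S 3 = {σ | ∃ I ∈ C, σ = cone V I} :=
  ⟨V, C, isFMatrix_V, isPseudofan_C, minimal_C, overlap, no_fan⟩

end Pool.Agent.Results.MP_d9dcf6_co.NotAFan
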